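import Pool.Agent.Lib.MP_a53fda_al.CaseC
import Pool.Agent.Lib.MP_a53fda_al.CaseAB
import Pool.Agent.Lib.MP_a53fda_al.ExOne
import Pool.Agent.Lib.MP_a53fda_al.ExTop
import Pool.Agent.Lib.MP_a53fda_al.ExRing

/-!
# Cantor-Bendixson rank of the Ziegler spectrum of a differential polynomial ring

The set of values of `CB(Zg_R)`, for `R = k[X, δ]` with `k` a field of characteristic `0` and `δ`
a derivation of `k`, is `{1, 2, ∞}`. Right `R`-modules are the left modules over `Rᵐᵒᵖ`.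
-/

set_option autoImplicit false

namespace Pool.Agent.Results.MP_a53fda_al.CBRankTrichotomy

open Pool.Agent.Lib.MP_a53fda_al

universe u

theorem condB_zero (k : Type u) [Field k] : CondB (0 : Derivation ℤ k k) := by
  classical
  refine ⟨0, 1, fun a => by simp, ?_⟩
  intro Z _ _ _ D hD z hz
  -- `D` is `k`-linear
  let D' : Z →ₗ[k] Z :=
    { toFun := D
      map_add' := D.map_add
      map_smul' := fun a x => by
        have := hD a x
        simpa using this }
  have hz' : (Submodule.Quotient.mk z : Z ⧸ LinearMap.range D') ≠ 0 := by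
    rw [Ne, Submodule.Quotient.mk_eq_zero]
    rintro ⟨x, hx⟩
    exact hz x hx
  obtain ⟨g, hg⟩ : ∃ g : Module.Dual k (Z ⧸ LinearMap.range D'),
      g (Submodule.Quotient.mk z) ≠ 0 := by
    by_contra hcon
    push Not at hcon
    exact hz' ((Module.forall_dual_apply_eq_zero_iff k _).mp hcon)
  let f : Z →ₗ[k] k := g ∘ₗ (LinearMap.range D').mkQ
  have hf : f z ≠ 0 := hg
  have hfD' : ∀ x, f (D x) = 0 := by
    intro x
    have h1 : (Submodule.Quotient.mk (D x) : Z ⧸ LinearMap.range D') = 0 := by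
      rw [Submodule.Quotient.mk_eq_zero]
      exact ⟨x, rfl⟩
    change g (Submodule.Quotient.mk (D x)) = 0
    rw [h1, map_zero]
  refine ⟨(f z)⁻¹ • f, fun x => ?_, 0, ?_⟩
  · simp [hfD']
  · simp [hf]

/-- The rank of the Ziegler spectrum of `S = k[X; δ]`. -/
theorem rank_trichotomy {k S : Type u} [Field k] [CharZero k] [Ring S] [DP k S] :
    (CondA (dδ k S) ∧ IsCBRank (Zg S) 1) ∨ (CondB (dδ k S) ∧ IsCBRank (Zg S) 2) ∨
      (¬ CondA (dδ k S) ∧ ¬ CondB (dδ k S) ∧ IsCBRank (Zg S) ⊤) := by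
  by_cases hA : CondA (dδ k S)
  · exact Or.inl ⟨hA, rank_one hA⟩
  · by_cases hB : CondB (dδ k S)
    · exact Or.inr (Or.inl ⟨hB, rank_two hB⟩)
    · exact Or.inr (Or.inr ⟨hA, hB, rank_top hA hB⟩)

/-- **Full answer to Q1 (Puninski's conjecture).** The set of all values taken by the
Cantor-Bendixson rank of the Ziegler spectrum (of right modules) of `R = k[X, δ]`, with `k` a field
of characteristic `0` and `δ` a derivation of `k`, is `{1, 2, ∞}`. -/
theorem result :
    {v : WithTop Ordinal.{u + 1} | ∃ (k R : Type u) (_ : Field k) (_ : CharZero k) (_ : Ring R)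
      (δ : Derivation ℤ k k) (ι : k →+* R) (X : R),
        IsDiffPolyRing δ ι X ∧ IsCBRank (Zg Rᵐᵒᵖ) v} = {1, 2, ⊤} := by
  -- reduction to left modules over the opposite ring
  have key : ∀ (k R : Type u) [Field k] [CharZero k] [Ring R] (δ : Derivation ℤ k k)
      (ι : k →+* R) (X : R), IsDiffPolyRing δ ι X →
      (CondA δ ∧ IsCBRank (Zg Rᵐᵒᵖ) 1) ∨ (CondB δ ∧ IsCBRank (Zg Rᵐᵒᵖ) 2) ∨
      (¬ CondA δ ∧ ¬ CondB δ ∧ IsCBRank (Zg Rᵐᵒᵖ) ⊤) := by
    intro k R _ _ _ δ ι X h
    obtain ⟨ι', X', h'⟩ := exists_op h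
    let _ : DP k Rᵐᵒᵖ := dpOf h'
    exact rank_trichotomy (k := k) (S := Rᵐᵒᵖ)
  ext v
  simp only [Set.mem_ofPred_eq, Set.mem_insert_iff, Set.mem_singleton_iff]
  constructor
  · rintro ⟨k, R, _, _, _, δ, ι, X, h, hv⟩
    rcases key k R δ ι X h with ⟨-, h1⟩ | ⟨-, h1⟩ | ⟨-, -, h1⟩
    · exact Or.inl (isCBRank_unique hv h1)
    · exact Or.inr (Or.inl (isCBRank_unique hv h1))
    · exact Or.inr (Or.inr (isCBRank_unique hv h1))
  · rintro (rfl | rfl | rfl)
    · obtain ⟨k, _, _, δ, hA⟩ := exists_condA.{u}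
      obtain ⟨R, _, ι, X, h⟩ := exists_isDiffPolyRing δ
      refine ⟨k, R, inferInstance, inferInstance, inferInstance, δ, ι, X, h, ?_⟩
      rcases key k R δ ι X h with ⟨-, h1⟩ | ⟨h2, -⟩ | ⟨h2, -, -⟩
      · exact h1
      · exact absurd hA (not_condA_of_condB h2)
      · exact absurd hA h2
    · obtain ⟨k, _, _, -, -⟩ := exists_condA.{u}
      obtain ⟨R, _, ι, X, h⟩ := exists_isDiffPolyRing (0 : Derivation ℤ k k)
      refine ⟨k, R, inferInstance, inferInstance, inferInstance, 0, ι, X, h, ?_⟩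
      have hB := condB_zero k
      rcases key k R 0 ι X h with ⟨h2, -⟩ | ⟨-, h1⟩ | ⟨-, h2, -⟩
      · exact absurd h2 (not_condA_of_condB hB)
      · exact h1
      · exact absurd hB h2
    · obtain ⟨k, _, _, δ, hA, hB⟩ := exists_not_condA_not_condB.{u}
      obtain ⟨R, _, ι, X, h⟩ := exists_isDiffPolyRing δ
      refine ⟨k, R, inferInstance, inferInstance, inferInstance, δ, ι, X, h, ?_⟩
      rcases key k R δ ι X h with ⟨h2, -⟩ | ⟨h2, -⟩ | ⟨-, -, h1⟩
      · exact absurd h2 hA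
      · exact absurd h2 hB
      · exact h1

end Pool.Agent.Results.MP_a53fda_al.CBRankTrichotomy
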